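import Mathlib
import Pool.Agent.Helper16.UB.Mert
import Pool.Agent.Helper10.P5.Mert

set_option autoImplicit false

/-! Mertens' second theorem with a convergent constant. -/

namespace Pool.Agent.Helper32.M3

open Finset Filter Topology Pool.Agent.Helper16.UB

theorem Aa_bound : ∃ C : ℝ, 0 ≤ C ∧ ∀ n : ℕ, 1 ≤ n → |Aa n - Real.log n| ≤ C := by
  obtain ⟨C, hC, h⟩ := Pool.Agent.Helper10.P5.mertens_lower
  have h4 : 0 ≤ Real.log 4 := Real.log_nonneg (by norm_num)
  refine ⟨C + Real.log 4, by positivity, fun n hn => ?_⟩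
  have h1 : Real.log n - C ≤ Aa n := h n hn
  have h2 := Aa_le n hn
  rw [abs_le]
  constructor <;> linarith

/-- the error term of Mertens' second theorem, smoothed -/
noncomputable def uu (n : ℕ) : ℝ :=
  W n - Real.log (Real.log n) - (Aa n - Real.log n) / Real.log n

theorem uu_step (C : ℝ) (_hC : 0 ≤ C) (h : ∀ n : ℕ, 1 ≤ n → |Aa n - Real.log n| ≤ C) (n : ℕ)
    (hn : 2 ≤ n) : |uu (n + 1) - uu n| ≤
      (C + 1) * (1 / Real.log n - 1 / Real.log ((n + 1 : ℕ) : ℝ)) := by
  have hnR : (2 : ℝ) ≤ n := by exact_mod_cast hn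
  set a := Real.log n with ha
  set b := Real.log ((n + 1 : ℕ) : ℝ) with hb
  have ha0 : 0 < a := Real.log_pos (by linarith)
  have hab : a < b := Real.log_lt_log (by linarith) (by push_cast; linarith)
  have hb0 : 0 < b := ha0.trans hab
  have hba : b - a ≤ 1 := by
    rw [ha, hb, ← Real.log_div (by positivity) (by positivity)]
    have h1 := Real.log_le_sub_one_of_pos (x := ((n + 1 : ℕ) : ℝ) / n) (by positivity)
    refine h1.trans ?_
    push_cast
    rw [sub_le_iff_le_add, div_le_iff₀ (by linarith)]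
    linarith
  have hinv : 0 ≤ 1 / a - 1 / b := by
    have := one_div_le_one_div_of_le ha0 hab.le
    linarith
  have hW : W (n + 1) - W n = (Aa (n + 1) - Aa n) / b := by
    unfold W Aa
    rw [sum_PL_succ, sum_PL_succ]
    by_cases hp : (n + 1).Prime
    · rw [if_pos hp, if_pos hp, ← hb]
      field_simp
      ring
    · rw [if_neg hp, if_neg hp]
      simp
  set R := Aa n - a with hR
  have hRC : |R| ≤ C := h n (by omega)
  have e1 : uu (n + 1) - uu n =
      ((b - a) / b - Real.log (b / a)) + R * (1 / a - 1 / b) := by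
    have e2 : W (n + 1) = W n + (Aa (n + 1) - Aa n) / b := by linarith
    unfold uu
    rw [← ha, ← hb, e2, Real.log_div hb0.ne' ha0.ne', hR]
    field_simp
    ring
  rw [e1]
  have h2 : Real.log (b / a) ≤ (b - a) / a := by
    have h3 := Real.log_le_sub_one_of_pos (x := b / a) (by positivity)
    refine h3.trans (le_of_eq ?_)
    field_simp
  have h3 : (b - a) / b ≤ Real.log (b / a) := by
    have h4 := Real.one_sub_inv_le_log_of_pos (x := b / a) (by positivity)
    refine le_trans (le_of_eq ?_) h4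
    rw [inv_div]
    field_simp
  have h4 : |(b - a) / b - Real.log (b / a)| ≤ 1 * (1 / a - 1 / b) := by
    have h5 : (b - a) / a - (b - a) / b = (b - a) * (1 / a - 1 / b) := by ring
    have h6 : (b - a) * (1 / a - 1 / b) ≤ 1 * (1 / a - 1 / b) :=
      mul_le_mul_of_nonneg_right hba hinv
    rw [abs_le]
    constructor <;> linarith
  have h5 : |R * (1 / a - 1 / b)| ≤ C * (1 / a - 1 / b) := by
    rw [abs_mul, abs_of_nonneg hinv]
    exact mul_le_mul_of_nonneg_right hRC hinv
  refine (abs_add_le _ _).trans ?_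
  linarith

theorem uu_dist (C : ℝ) (hC : 0 ≤ C) (h : ∀ n : ℕ, 1 ≤ n → |Aa n - Real.log n| ≤ C) (n m : ℕ)
    (hn : 2 ≤ n) (hnm : n ≤ m) :
    |uu m - uu n| ≤ (C + 1) * (1 / Real.log n - 1 / Real.log m) := by
  induction m, hnm using Nat.le_induction with
  | base => simp
  | succ m hnm ih =>
    have h1 := uu_step C hC h m (by omega)
    have h2 : uu (m + 1) - uu n = (uu (m + 1) - uu m) + (uu m - uu n) := by ring
    rw [h2]
    refine (abs_add_le _ _).trans ?_
    linarith

theorem log_tendsto : Tendsto (fun n : ℕ => Real.log (n : ℝ)) atTop atTop :=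
  Real.tendsto_log_atTop.comp tendsto_natCast_atTop_atTop

theorem W_tendsto : ∃ c : ℝ, Tendsto (fun n : ℕ => W n - Real.log (Real.log n)) atTop (𝓝 c) := by
  obtain ⟨C, hC, h⟩ := Aa_bound
  have hlim0 : Tendsto (fun n : ℕ => (C + 1) * (1 / Real.log ((n + 2 : ℕ) : ℝ))) atTop (𝓝 0) := by
    have h1 : Tendsto (fun n : ℕ => 1 / Real.log ((n + 2 : ℕ) : ℝ)) atTop (𝓝 0) := by
      simp only [one_div]
      exact tendsto_inv_atTop_zero.comp (log_tendsto.comp (tendsto_add_atTop_nat 2))
    have h2 := h1.const_mul (C + 1)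
    rwa [mul_zero] at h2
  have hkey : ∀ N n m : ℕ, N ≤ n → n ≤ m →
      |uu (m + 2) - uu (n + 2)| ≤ (C + 1) * (1 / Real.log ((N + 2 : ℕ) : ℝ)) := by
    intro N n m hNn hnm
    have h1 := uu_dist C hC h (n + 2) (m + 2) (by omega) (by omega)
    refine h1.trans ?_
    apply mul_le_mul_of_nonneg_left _ (by linarith)
    have h2 : 0 ≤ 1 / Real.log ((m + 2 : ℕ) : ℝ) := by
      have : 0 ≤ Real.log ((m + 2 : ℕ) : ℝ) := Real.log_natCast_nonneg _
      positivity
    have h3 : 1 / Real.log ((n + 2 : ℕ) : ℝ) ≤ 1 / Real.log ((N + 2 : ℕ) : ℝ) := by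
      apply one_div_le_one_div_of_le
      · apply Real.log_pos
        push_cast
        have : (0 : ℝ) ≤ N := Nat.cast_nonneg N
        linarith
      · apply Real.log_le_log
        · push_cast
          have : (0 : ℝ) ≤ N := Nat.cast_nonneg N
          linarith
        · have : N + 2 ≤ n + 2 := by omega
          exact_mod_cast this
    linarith
  have hc : CauchySeq (fun n : ℕ => uu (n + 2)) := by
    refine cauchySeq_of_le_tendsto_0 _ (fun n m N hn hm => ?_) hlim0
    rw [Real.dist_eq]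
    rcases le_total n m with h1 | h1
    · rw [abs_sub_comm]
      exact hkey N n m hn h1
    · exact hkey N m n hm h1
  obtain ⟨c, hc⟩ := cauchySeq_tendsto_of_complete hc
  refine ⟨c, ?_⟩
  have hc2 : Tendsto uu atTop (𝓝 c) := (tendsto_add_atTop_iff_nat 2).1 hc
  have h3 : Tendsto (fun n : ℕ => (Aa n - Real.log n) / Real.log n) atTop (𝓝 0) := by
    have h4 : Tendsto (fun n : ℕ => C / Real.log (n : ℝ)) atTop (𝓝 0) := by
      have := (tendsto_inv_atTop_zero.comp log_tendsto).const_mul C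
      rw [mul_zero] at this
      exact this
    apply squeeze_zero_norm' _ h4
    filter_upwards [eventually_ge_atTop 2] with n hn
    have hnR : (2 : ℝ) ≤ n := by exact_mod_cast hn
    have hl : 0 < Real.log n := Real.log_pos (by linarith)
    rw [Real.norm_eq_abs, abs_div, abs_of_pos hl]
    exact div_le_div_of_nonneg_right (h n (by omega)) hl.le
  have h4 := hc2.add h3
  rw [add_zero] at h4
  refine h4.congr fun n => ?_
  unfold uu
  ring

/-- `-log (1 - 1/p)` on the primes -/
noncomputable def hh (n : ℕ) : ℝ := if n.Prime then -Real.log (1 - 1 / (n : ℝ)) else 0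

/-- `∑_{p ≤ n} -log (1 - 1/p)` -/
noncomputable def FF (n : ℕ) : ℝ := ∑ p ∈ PL n, hh p

theorem neg_log_bound (x : ℝ) (_hx : 0 ≤ x) (hx1 : x ≤ 1 / 2) :
    0 ≤ -Real.log (1 - x) - x ∧ -Real.log (1 - x) - x ≤ 2 * x ^ 2 := by
  have h1 : 0 < 1 - x := by linarith
  have h2 := Real.log_le_sub_one_of_pos h1
  have h3 := Real.one_sub_inv_le_log_of_pos h1
  refine ⟨by linarith, ?_⟩
  have h4 : (1 - x)⁻¹ ≤ 1 + x + 2 * x ^ 2 := by
    rw [inv_eq_one_div, div_le_iff₀ h1]
    nlinarith [mul_nonneg _hx _hx, mul_nonneg (mul_nonneg _hx _hx) _hx]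
  linarith

theorem hh_bound (n : ℕ) (hp : n.Prime) :
    0 ≤ hh n - 1 / (n : ℝ) ∧ hh n - 1 / (n : ℝ) ≤ 2 / (n : ℝ) ^ 2 := by
  have h2 : (2 : ℝ) ≤ n := by exact_mod_cast hp.two_le
  have h3 : 1 / (n : ℝ) ≤ 1 / 2 := one_div_le_one_div_of_le (by norm_num) h2
  have h4 := neg_log_bound (1 / (n : ℝ)) (by positivity) h3
  unfold hh
  rw [if_pos hp]
  refine ⟨h4.1, h4.2.trans (le_of_eq ?_)⟩
  rw [one_div_pow]
  ring

theorem FF_tendsto : ∃ c : ℝ, Tendsto (fun n : ℕ => FF n - Real.log (Real.log n)) atTop (𝓝 c) := by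
  obtain ⟨c, hc⟩ := W_tendsto
  set e : ℕ → ℝ := fun n => if n.Prime then hh n - 1 / (n : ℝ) else 0 with he
  have hsum : Summable e := by
    have h1 : Summable (fun n : ℕ => 2 * (1 / (n : ℝ) ^ 2)) :=
      (Real.summable_one_div_nat_pow.2 (by norm_num)).mul_left 2
    refine Summable.of_nonneg_of_le (fun n => ?_) (fun n => ?_) h1
    · rw [he]
      simp only
      split_ifs with hp
      · exact (hh_bound n hp).1
      · exact le_rfl
    · rw [he]
      simp only
      split_ifs with hp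
      · refine (hh_bound n hp).2.trans (le_of_eq ?_)
        ring
      · positivity
  refine ⟨c + ∑' n, e n, ?_⟩
  have h1 := hsum.hasSum.tendsto_sum_nat
  have h2 := h1.comp (tendsto_add_atTop_nat 1)
  refine (hc.add h2).congr fun n => ?_
  have h3 : ∑ i ∈ range (n + 1), e i = ∑ p ∈ PL n, (hh p - 1 / (p : ℝ)) := by
    rw [he]
    simp only
    rw [← sum_filter]
    refine sum_congr ?_ fun _ _ => rfl
    ext p
    rw [mem_filter, mem_range, mem_PL, Nat.lt_succ_iff]
  simp only [Function.comp_apply]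
  rw [h3, sum_sub_distrib]
  unfold FF W
  ring

end Pool.Agent.Helper32.M3
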