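import Mathlib
import Pool.Agent.Helper32.M3.Two

set_option autoImplicit false

/-! The zeta function near one, for Mertens' third theorem. -/

namespace Pool.Agent.Helper32.M3

open Finset Filter Topology

/-- `-log (1 - p^(-σ))` on the primes -/
noncomputable def zz (σ : ℝ) (n : ℕ) : ℝ :=
  if n.Prime then -Real.log (1 - (n : ℝ) ^ (-σ)) else 0

theorem pow_le_inv (σ : ℝ) (hσ : 1 ≤ σ) (n : ℕ) (hn : 2 ≤ n) :
    0 < (n : ℝ) ^ (-σ) ∧ (n : ℝ) ^ (-σ) ≤ 1 / n ∧ 1 / (n : ℝ) ≤ 1 / 2 := by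
  have hnR : (2 : ℝ) ≤ n := by exact_mod_cast hn
  refine ⟨Real.rpow_pos_of_pos (by linarith) _, ?_, one_div_le_one_div_of_le (by norm_num) hnR⟩
  have h1 : (n : ℝ) ^ (-σ) ≤ (n : ℝ) ^ (-1 : ℝ) :=
    Real.rpow_le_rpow_of_exponent_le (by linarith) (by linarith)
  rwa [Real.rpow_neg_one, ← one_div] at h1

theorem zz_bound (σ : ℝ) (hσ : 1 ≤ σ) (n : ℕ) (hp : n.Prime) :
    0 ≤ zz σ n - (n : ℝ) ^ (-σ) ∧ zz σ n - (n : ℝ) ^ (-σ) ≤ 2 * (1 / (n : ℝ) ^ 2) := by
  obtain ⟨h1, h2, h3⟩ := pow_le_inv σ hσ n hp.two_le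
  have h4 := neg_log_bound ((n : ℝ) ^ (-σ)) h1.le (h2.trans h3)
  unfold zz
  rw [if_pos hp]
  refine ⟨h4.1, h4.2.trans ?_⟩
  have h5 := pow_le_pow_left₀ h1.le h2 2
  rw [one_div_pow] at h5
  linarith

theorem zz_abs (σ : ℝ) (hσ : 1 ≤ σ) (n : ℕ) : |zz σ n| ≤ 2 * (n : ℝ) ^ (-σ) := by
  by_cases hp : n.Prime
  · obtain ⟨h1, h2, h3⟩ := pow_le_inv σ hσ n hp.two_le
    have h4 := neg_log_bound ((n : ℝ) ^ (-σ)) h1.le (h2.trans h3)
    unfold zz
    rw [if_pos hp, abs_of_nonneg (by linarith)]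
    nlinarith
  · unfold zz
    rw [if_neg hp, abs_zero]
    positivity

theorem zz_summable (σ : ℝ) (hσ : 1 < σ) : Summable (zz σ) := by
  have h1 : Summable (fun n : ℕ => 2 * (n : ℝ) ^ (-σ)) :=
    (Real.summable_nat_rpow.2 (by linarith)).mul_left 2
  refine Summable.of_norm_bounded h1 fun n => ?_
  rw [Real.norm_eq_abs]
  exact zz_abs σ hσ.le n

theorem exp_tsum_zz (σ : ℝ) (hσ : 1 < σ) :
    Real.exp (∑' n, zz σ n) = ∑' n : ℕ, 1 / (n : ℝ) ^ σ := by
  have hre : 1 < ((σ : ℂ)).re := by simpa using hσ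
  have h := riemannZeta_eulerProduct_exp_log hre
  have h1 : ∀ p : Nat.Primes, -Complex.log (1 - (p : ℂ) ^ (-(σ : ℂ))) =
      ((zz σ (p : ℕ) : ℝ) : ℂ) := by
    intro p
    obtain ⟨a1, a2, a3⟩ := pow_le_inv σ hσ.le (p : ℕ) p.2.two_le
    unfold zz
    rw [if_pos p.2]
    rw [Complex.ofReal_neg, Complex.ofReal_log (by linarith)]
    congr 2
    rw [Complex.ofReal_sub, Complex.ofReal_one, Complex.ofReal_cpow (Nat.cast_nonneg _)]
    push_cast
    rfl
  have h2 : ∑' p : Nat.Primes, -Complex.log (1 - (p : ℂ) ^ (-(σ : ℂ))) =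
      ((∑' n, zz σ n : ℝ) : ℂ) := by
    rw [tsum_congr h1, ← Complex.ofReal_tsum]
    congr 1
    have h3 := tsum_subtype {n : ℕ | n.Prime} (zz σ)
    have h4 : Set.indicator {n : ℕ | n.Prime} (zz σ) = zz σ := by
      funext n
      by_cases hn : n.Prime
      · rw [Set.indicator_of_mem (show n ∈ {n : ℕ | n.Prime} from hn)]
      · rw [Set.indicator_of_notMem (show n ∉ {n : ℕ | n.Prime} from hn)]
        unfold zz
        rw [if_neg hn]
    rw [h4] at h3
    exact h3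
  rw [h2, zeta_eq_tsum_one_div_nat_cpow hre] at h
  apply Complex.ofReal_injective
  rw [Complex.ofReal_exp, h, Complex.ofReal_tsum]
  refine tsum_congr fun n => ?_
  rw [Complex.ofReal_div, Complex.ofReal_one, Complex.ofReal_cpow (Nat.cast_nonneg _)]
  push_cast
  rfl

/-- `1 / (k + 1)` -/
noncomputable def sk (k : ℕ) : ℝ := 1 / ((k : ℝ) + 1)

theorem sk_pos (k : ℕ) : 0 < sk k := by unfold sk; positivity

theorem sk_tendsto : Tendsto sk atTop (𝓝 0) := tendsto_one_div_add_atTop_nhds_zero_nat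

theorem zz_lim : Tendsto (fun k : ℕ => (∑' n, zz (1 + sk k) n) - Real.log ((k : ℝ) + 1)) atTop
    (𝓝 0) := by
  have h1 : Tendsto (fun k : ℕ => 1 + sk k) atTop (𝓝[>] 1) := by
    rw [tendsto_nhdsWithin_iff]
    constructor
    · have := sk_tendsto.const_add 1
      rwa [add_zero] at this
    · exact Eventually.of_forall fun k => by
        have := sk_pos k
        show 1 < 1 + sk k
        linarith
  have h2 := tendsto_sub_mul_tsum_nat_rpow.comp h1
  have h3 : Tendsto (fun k : ℕ => Real.log ((1 + sk k - 1) * ∑' n : ℕ, 1 / (n : ℝ) ^ (1 + sk k)))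
      atTop (𝓝 (Real.log 1)) :=
    (Real.continuousAt_log one_ne_zero).tendsto.comp h2
  rw [Real.log_one] at h3
  refine h3.congr fun k => ?_
  have hs := sk_pos k
  rw [← exp_tsum_zz (1 + sk k) (by linarith), add_sub_cancel_left,
    Real.log_mul hs.ne' (Real.exp_pos _).ne', Real.log_exp]
  unfold sk
  rw [one_div, Real.log_inv]
  ring

/-- the comparison series -/
noncomputable def Gk (k : ℕ) : ℝ := ∑' n : ℕ, hh n * (n : ℝ) ^ (-sk k)

theorem hh_nonneg (n : ℕ) : 0 ≤ hh n := by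
  by_cases hp : n.Prime
  · have h1 := (hh_bound n hp).1
    have : 0 ≤ 1 / (n : ℝ) := by positivity
    linarith
  · unfold hh
    rw [if_neg hp]

theorem hh_le (n : ℕ) : hh n ≤ 2 * (n : ℝ) ^ (-1 : ℝ) := by
  by_cases hp : n.Prime
  · have h1 := (hh_bound n hp).2
    have h2 : (2 : ℝ) ≤ n := by exact_mod_cast hp.two_le
    have h3 : 2 / (n : ℝ) ^ 2 ≤ 1 / n := by
      rw [div_le_div_iff₀ (by positivity) (by positivity)]
      nlinarith
    rw [Real.rpow_neg_one, ← one_div]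
    linarith
  · unfold hh
    rw [if_neg hp]
    positivity

theorem hk_le (s : ℝ) (n : ℕ) : |hh n * (n : ℝ) ^ (-s)| ≤ 2 * (n : ℝ) ^ (-(1 + s)) := by
  rcases Nat.eq_zero_or_pos n with rfl | hn
  · unfold hh
    rw [if_neg Nat.not_prime_zero, zero_mul, abs_zero]
    positivity
  have hnR : (0 : ℝ) < n := by exact_mod_cast hn
  have h0 := hh_nonneg n
  have h1 : 0 < (n : ℝ) ^ (-s) := Real.rpow_pos_of_pos hnR _
  rw [abs_of_nonneg (by positivity)]
  have h2 : (n : ℝ) ^ (-(1 + s)) = (n : ℝ) ^ (-1 : ℝ) * (n : ℝ) ^ (-s) := by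
    rw [← Real.rpow_add hnR]
    congr 1
    ring
  rw [h2, ← mul_assoc]
  exact mul_le_mul_of_nonneg_right (hh_le n) h1.le

theorem hk_summable (s : ℝ) (hs : 0 < s) : Summable (fun n : ℕ => hh n * (n : ℝ) ^ (-s)) := by
  have h1 : Summable (fun n : ℕ => 2 * (n : ℝ) ^ (-(1 + s))) :=
    (Real.summable_nat_rpow.2 (by linarith)).mul_left 2
  refine Summable.of_norm_bounded h1 fun n => ?_
  rw [Real.norm_eq_abs]
  exact hk_le s n

theorem diff_lim : Tendsto (fun k : ℕ => (∑' n, zz (1 + sk k) n) - Gk k) atTop (𝓝 0) := by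
  have h1 : ∀ k, (∑' n, zz (1 + sk k) n) - Gk k =
      ∑' n : ℕ, (zz (1 + sk k) n - hh n * (n : ℝ) ^ (-sk k)) := by
    intro k
    have hs := sk_pos k
    rw [(zz_summable (1 + sk k) (by linarith)).tsum_sub (hk_summable (sk k) hs)]
    rfl
  simp only [h1]
  have h0 : (0 : ℝ) = ∑' _ : ℕ, (0 : ℝ) := tsum_zero.symm
  rw [h0]
  have hb : Summable (fun n : ℕ => 2 * (1 / (n : ℝ) ^ 2)) :=
    (Real.summable_one_div_nat_pow.2 (by norm_num)).mul_left 2
  refine tendsto_tsum_of_dominated_convergence hb (fun n => ?_) (Eventually.of_forall fun k n => ?_)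
  · by_cases hp : n.Prime
    · have hn0 : (n : ℝ) ≠ 0 := by exact_mod_cast hp.ne_zero
      have hn1 : (2 : ℝ) ≤ n := by exact_mod_cast hp.two_le
      have e1 : Tendsto (fun k : ℕ => (n : ℝ) ^ (-(1 + sk k))) atTop (𝓝 ((n : ℝ) ^ (-(1 + 0) : ℝ))) := by
        have e2 : Tendsto (fun k : ℕ => -(1 + sk k)) atTop (𝓝 (-(1 + 0))) :=
          (sk_tendsto.const_add 1).neg
        exact ((Real.continuous_const_rpow hn0).tendsto _).comp e2
      have e3 : Tendsto (fun k : ℕ => (n : ℝ) ^ (-sk k)) atTop (𝓝 ((n : ℝ) ^ (-0 : ℝ))) :=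
        ((Real.continuous_const_rpow hn0).tendsto _).comp sk_tendsto.neg
      rw [add_zero, Real.rpow_neg_one] at e1
      rw [neg_zero, Real.rpow_zero] at e3
      have e4 : 1 - ((n : ℝ))⁻¹ ≠ 0 := by
        have : ((n : ℝ))⁻¹ ≤ 2⁻¹ := inv_anti₀ (by norm_num) hn1
        intro h
        norm_num at this
        linarith
      have e5 : Tendsto (fun k : ℕ => -Real.log (1 - (n : ℝ) ^ (-(1 + sk k)))) atTop
          (𝓝 (-Real.log (1 - ((n : ℝ))⁻¹))) :=
        ((Real.continuousAt_log e4).tendsto.comp (e1.const_sub 1)).neg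
      have e6 := e5.sub (e3.const_mul (hh n))
      have e7 : -Real.log (1 - ((n : ℝ))⁻¹) - hh n * 1 = 0 := by
        unfold hh
        rw [if_pos hp, one_div]
        ring
      rw [e7] at e6
      refine e6.congr fun k => ?_
      unfold zz
      rw [if_pos hp]
    · have e1 : ∀ k, zz (1 + sk k) n - hh n * (n : ℝ) ^ (-sk k) = 0 := by
        intro k
        unfold zz hh
        rw [if_neg hp, if_neg hp]
        ring
      simp only [e1]
      exact tendsto_const_nhds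
  · by_cases hp : n.Prime
    · have hs := sk_pos k
      have a1 := zz_bound (1 + sk k) (by linarith) n hp
      have a2 := hh_bound n hp
      have hnR : (1 : ℝ) ≤ n := by exact_mod_cast hp.pos
      have a3 : (n : ℝ) ^ (-sk k) ≤ 1 :=
        Real.rpow_le_one_of_one_le_of_nonpos hnR (by linarith)
      have a4 : 0 < (n : ℝ) ^ (-sk k) := Real.rpow_pos_of_pos (by linarith) _
      have a5 : (n : ℝ) ^ (-(1 + sk k)) = 1 / n * (n : ℝ) ^ (-sk k) := by
        rw [neg_add, Real.rpow_add (by linarith), Real.rpow_neg_one, one_div]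
      have a6 : zz (1 + sk k) n - hh n * (n : ℝ) ^ (-sk k) =
          (zz (1 + sk k) n - (n : ℝ) ^ (-(1 + sk k))) - (hh n - 1 / n) * (n : ℝ) ^ (-sk k) := by
        rw [a5]
        ring
      have a7 : (hh n - 1 / n) * (n : ℝ) ^ (-sk k) ≤ 2 * (1 / (n : ℝ) ^ 2) := by
        have := mul_le_of_le_one_right a2.1 a3
        have a8 := a2.2
        have a9 : 2 / (n : ℝ) ^ 2 = 2 * (1 / (n : ℝ) ^ 2) := by ring
        linarith
      have a8 : 0 ≤ (hh n - 1 / n) * (n : ℝ) ^ (-sk k) := mul_nonneg a2.1 a4.le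
      rw [Real.norm_eq_abs, a6, abs_le]
      constructor <;> linarith [a1.1, a1.2]
    · unfold zz hh
      rw [if_neg hp, if_neg hp, zero_mul, sub_zero, norm_zero]
      positivity

theorem Gk_lim : Tendsto (fun k : ℕ => Gk k - Real.log ((k : ℝ) + 1)) atTop (𝓝 0) := by
  have h := zz_lim.sub diff_lim
  rw [sub_zero] at h
  refine h.congr fun k => ?_
  ring

end Pool.Agent.Helper32.M3
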