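import Mathlib
import Pool.Agent.Helper32.M3.Zeta

set_option autoImplicit false

/-! The sum `Gk k` as a Laplace transform, for Mertens' third theorem. -/

namespace Pool.Agent.Helper32.M3

open Finset Filter Topology Pool.Agent.Helper16.UB MeasureTheory Set

/-- the number `⌊exp (u (k + 1))⌋` -/
noncomputable def fl (u : ℝ) (k : ℕ) : ℕ := ⌊Real.exp (u * ((k : ℝ) + 1))⌋₊

theorem exp_neg_int (c : ℝ) : IntegrableOn (fun u : ℝ => Real.exp (-u)) (Ioi c) := by
  have h := exp_neg_integrableOn_Ioi c (b := 1) one_pos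
  simpa using h

/-- the summands -/
noncomputable def gg (k n : ℕ) (u : ℝ) : ℝ :=
  hh n * (Ici (Real.log n / ((k : ℝ) + 1))).indicator (fun u => Real.exp (-u)) u

theorem gg_nonneg (k n : ℕ) (u : ℝ) : 0 ≤ gg k n u := by
  unfold gg
  refine mul_nonneg (hh_nonneg n) (Set.indicator_nonneg (fun x _ => (Real.exp_pos _).le) u)

theorem gg_int (k n : ℕ) : Integrable (gg k n) (volume.restrict (Ioi 0)) := by
  unfold gg
  exact ((exp_neg_int 0).indicator measurableSet_Ici).const_mul _

theorem gg_integral (k n : ℕ) : ∫ u in Ioi 0, gg k n u = hh n * (n : ℝ) ^ (-sk k) := by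
  unfold gg
  rw [integral_const_mul]
  by_cases hp : n.Prime
  · have hn : (2 : ℝ) ≤ n := by exact_mod_cast hp.two_le
    have hl : 0 < Real.log n := Real.log_pos (by linarith)
    have hc : 0 < Real.log n / ((k : ℝ) + 1) := by positivity
    congr 1
    have hsub : Ici (Real.log n / ((k : ℝ) + 1)) ⊆ Ioi (0 : ℝ) := fun x hx =>
      lt_of_lt_of_le hc hx
    rw [setIntegral_indicator measurableSet_Ici, Set.inter_eq_self_of_subset_right hsub,
      integral_Ici_eq_integral_Ioi, integral_exp_neg_Ioi, Real.rpow_def_of_pos (by linarith)]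
    congr 1
    unfold sk
    ring
  · have h0 : hh n = 0 := by unfold hh; rw [if_neg hp]
    rw [h0, zero_mul, zero_mul]

theorem gg_tsum (k : ℕ) (u : ℝ) : ∑' n, gg k n u = Real.exp (-u) * FF (fl u k) := by
  have hk : (0 : ℝ) < (k : ℝ) + 1 := by positivity
  rw [tsum_eq_sum (s := PL (fl u k))]
  · unfold FF
    rw [Finset.mul_sum]
    refine Finset.sum_congr rfl fun p hp => ?_
    obtain ⟨h1, h2⟩ := mem_PL.1 hp
    unfold gg
    rw [Set.indicator_of_mem, mul_comm]
    rw [Set.mem_Ici, div_le_iff₀ hk]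
    have hp0 : (0 : ℝ) < p := by exact_mod_cast h2.pos
    have h3 : (p : ℝ) ≤ Real.exp (u * ((k : ℝ) + 1)) := by
      unfold fl at h1
      exact (Nat.le_floor_iff (Real.exp_pos _).le).1 h1
    calc Real.log p ≤ Real.log (Real.exp (u * ((k : ℝ) + 1))) := Real.log_le_log hp0 h3
      _ = _ := Real.log_exp _
  · intro n hn
    unfold gg
    by_cases hp : n.Prime
    · rw [Set.indicator_of_notMem, mul_zero]
      intro h1
      apply hn
      rw [mem_PL]
      refine ⟨?_, hp⟩
      unfold fl
      rw [Nat.le_floor_iff (Real.exp_pos _).le]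
      rw [Set.mem_Ici, div_le_iff₀ hk] at h1
      have hp0 : (0 : ℝ) < n := by exact_mod_cast hp.pos
      calc (n : ℝ) = Real.exp (Real.log n) := (Real.exp_log hp0).symm
        _ ≤ _ := Real.exp_le_exp.2 h1
    · have h0 : hh n = 0 := by unfold hh; rw [if_neg hp]
      rw [h0, zero_mul]

theorem Gk_eq (k : ℕ) : Gk k = ∫ u in Ioi 0, Real.exp (-u) * FF (fl u k) := by
  have hnorm : ∀ n, ∫ u in Ioi 0, ‖gg k n u‖ = hh n * (n : ℝ) ^ (-sk k) := by
    intro n
    rw [← gg_integral]
    refine integral_congr_ae (Filter.Eventually.of_forall fun u => ?_)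
    exact Real.norm_of_nonneg (gg_nonneg k n u)
  have hs : Summable fun n => ∫ u in Ioi 0, ‖gg k n u‖ := by
    simp_rw [hnorm]
    exact hk_summable (sk k) (sk_pos k)
  have h1 := hasSum_integral_of_summable_integral_norm (gg_int k) hs
  have h2 : (fun u => ∑' n, gg k n u) = fun u => Real.exp (-u) * FF (fl u k) :=
    funext (gg_tsum k)
  unfold Gk
  rw [← h2, ← h1.tsum_eq]
  exact tsum_congr fun n => (gg_integral k n).symm

theorem meas_FF (k : ℕ) : Measurable (fun u => FF (fl u k)) := by
  have h1 : Measurable (fun u => fl u k) := by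
    unfold fl
    exact (Real.measurable_exp.comp (measurable_id.mul_const _)).nat_floor
  exact (measurable_from_nat (f := FF)).comp h1

/-! ### The bound -/

theorem fl_ge (u : ℝ) (k : ℕ) (hu : 1 ≤ u * ((k : ℝ) + 1)) : 2 ≤ fl u k := by
  unfold fl
  rw [Nat.le_floor_iff (Real.exp_pos _).le]
  have h1 := Real.add_one_le_exp (u * ((k : ℝ) + 1))
  push_cast
  linarith

/-- `log ⌊exp v⌋` is close to `v` -/
theorem log_fl (u : ℝ) (k : ℕ) (hu : 1 ≤ u * ((k : ℝ) + 1)) :
    u * ((k : ℝ) + 1) - Real.log 2 ≤ Real.log (fl u k) ∧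
      Real.log (fl u k) ≤ u * ((k : ℝ) + 1) := by
  have h2 := fl_ge u k hu
  set v := u * ((k : ℝ) + 1) with hv
  have hfl : (fl u k : ℝ) ≤ Real.exp v := Nat.floor_le (Real.exp_pos _).le
  have hfl2 : Real.exp v < (fl u k : ℝ) + 1 := Nat.lt_floor_add_one _
  have h2R : (2 : ℝ) ≤ fl u k := by exact_mod_cast h2
  constructor
  · have h3 : Real.exp v ≤ 2 * fl u k := by linarith
    have h4 := Real.log_le_log (Real.exp_pos v) h3
    rw [Real.log_exp, Real.log_mul (by norm_num) (by linarith)] at h4
    linarith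
  · have h4 := Real.log_le_log (by linarith : (0 : ℝ) < fl u k) hfl
    rwa [Real.log_exp] at h4

theorem loglog_fl (u : ℝ) (k : ℕ) (hu : 1 ≤ u * ((k : ℝ) + 1)) :
    |Real.log (Real.log (fl u k)) - Real.log (u * ((k : ℝ) + 1))| ≤
      3 / (u * ((k : ℝ) + 1)) := by
  obtain ⟨h1, h2⟩ := log_fl u k hu
  set v := u * ((k : ℝ) + 1) with hv
  set w := Real.log (fl u k) with hw
  have hl2 : Real.log 2 ≤ 0.7 := by linarith [Real.log_two_lt_d9]
  have hl0 : 0 < Real.log 2 := Real.log_pos (by norm_num)
  have hv0 : 0 < v := by linarith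
  have hw0 : 0 < w := by linarith
  have hwv : 0.3 * v ≤ w := by nlinarith
  rw [← Real.log_div hw0.ne' hv0.ne', abs_le]
  have hq : 0 < w / v := div_pos hw0 hv0
  constructor
  · have h3 := Real.one_sub_inv_le_log_of_pos hq
    refine le_trans ?_ h3
    rw [inv_div]
    have h4 : v / w - 1 ≤ 3 / v := by
      rw [div_sub_one hw0.ne', div_le_div_iff₀ hw0 hv0]
      nlinarith
    linarith
  · have h3 := Real.log_le_sub_one_of_pos hq
    refine h3.trans ?_
    have h4 : w / v ≤ 1 := (div_le_one hv0).2 h2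
    have h5 : 0 < 3 / v := by positivity
    linarith

theorem FF_mono {m n : ℕ} (h : m ≤ n) : FF m ≤ FF n := by
  unfold FF
  refine Finset.sum_le_sum_of_subset_of_nonneg ?_ (fun p _ _ => hh_nonneg p)
  intro p hp
  rw [mem_PL] at hp ⊢
  exact ⟨hp.1.trans h, hp.2⟩

theorem FF_nonneg (n : ℕ) : 0 ≤ FF n := Finset.sum_nonneg fun p _ => hh_nonneg p

/-- the integrand is dominated -/
theorem FF_bound : ∃ C : ℝ, 0 ≤ C ∧ ∀ u : ℝ, 0 < u → ∀ k : ℕ,
    |FF (fl u k) - Real.log ((k : ℝ) + 1)| ≤ |Real.log u| + C := by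
  obtain ⟨c, hc⟩ := FF_tendsto
  obtain ⟨B, hB⟩ := hc.abs.bddAbove_range
  have hB' : ∀ n : ℕ, |FF n - Real.log (Real.log n)| ≤ B := fun n => hB ⟨n, rfl⟩
  have hB0 : 0 ≤ B := le_trans (abs_nonneg _) (hB' 0)
  have hF3 := FF_nonneg 3
  refine ⟨B + 3 + FF 3, by positivity, fun u hu k => ?_⟩
  have hk : (0 : ℝ) < (k : ℝ) + 1 := by positivity
  by_cases h1 : 1 ≤ u * ((k : ℝ) + 1)
  · have h2 := loglog_fl u k h1
    have h3 : 3 / (u * ((k : ℝ) + 1)) ≤ 3 := by
      rw [div_le_iff₀ (by linarith)]
      linarith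
    have h4 := hB' (fl u k)
    rw [Real.log_mul hu.ne' hk.ne'] at h2
    have e : FF (fl u k) - Real.log ((k : ℝ) + 1) =
        (FF (fl u k) - Real.log (Real.log (fl u k))) +
        (Real.log (Real.log (fl u k)) - (Real.log u + Real.log ((k : ℝ) + 1))) + Real.log u := by
      ring
    rw [e]
    refine (abs_add_le _ _).trans ?_
    have h5 := abs_add_le (FF (fl u k) - Real.log (Real.log (fl u k)))
      (Real.log (Real.log (fl u k)) - (Real.log u + Real.log ((k : ℝ) + 1)))
    linarith
  · push Not at h1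
    have h2 : fl u k ≤ 3 := by
      unfold fl
      have h3 : Real.exp (u * ((k : ℝ) + 1)) ≤ Real.exp 1 := Real.exp_le_exp.2 h1.le
      have h4 := Real.exp_one_lt_d9
      apply Nat.floor_le_of_le
      push_cast
      linarith
    have h3 := FF_mono h2
    have h4 := FF_nonneg (fl u k)
    have h5 : 0 ≤ Real.log ((k : ℝ) + 1) := Real.log_nonneg (by linarith [k.cast_nonneg (α := ℝ)])
    have h6 : Real.log ((k : ℝ) + 1) ≤ |Real.log u| := by
      have h7 := Real.log_le_log (by positivity) h1.le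
      rw [Real.log_mul hu.ne' hk.ne', Real.log_one] at h7
      have h8 := neg_abs_le (Real.log u)
      have h9 := neg_le_abs (Real.log u)
      linarith
    rw [abs_le]
    have := abs_nonneg (Real.log u)
    constructor <;> linarith

/-! ### The limit -/

theorem abs_log_le (u : ℝ) (hu : 0 < u) : |Real.log u| ≤ 2 * u ^ (1 / 2 - 1 : ℝ) + u := by
  have h0 : 0 < u ^ (1 / 2 - 1 : ℝ) := Real.rpow_pos_of_pos hu _
  by_cases h1 : 1 ≤ u
  · rw [abs_of_nonneg (Real.log_nonneg h1)]
    have := Real.log_le_sub_one_of_pos hu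
    linarith
  · push Not at h1
    rw [abs_of_nonpos (Real.log_nonpos hu.le h1.le)]
    have h2 := Real.log_le_sub_one_of_pos h0
    rw [Real.log_rpow hu] at h2
    linarith

theorem log_int : Integrable (fun u => Real.exp (-u) * |Real.log u|) (volume.restrict (Ioi 0)) := by
  have g1 : IntegrableOn (fun x : ℝ => Real.exp (-x) * x ^ ((1 / 2 : ℝ) - 1)) (Ioi 0) :=
    Real.GammaIntegral_convergent (by norm_num)
  have g2 : IntegrableOn (fun x : ℝ => Real.exp (-x) * x ^ ((2 : ℝ) - 1)) (Ioi 0) :=
    Real.GammaIntegral_convergent (by norm_num)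
  refine Integrable.mono' ((g1.const_mul 2).add g2) ?_ ?_
  · have h1 : Measurable (fun u : ℝ => Real.exp (-u) * |Real.log u|) :=
      (Real.measurable_exp.comp measurable_neg).mul
        (measurable_norm.comp Real.measurable_log)
    exact h1.aestronglyMeasurable
  · rw [ae_restrict_iff' measurableSet_Ioi]
    refine Filter.Eventually.of_forall fun u hu => ?_
    have hu' : (0 : ℝ) < u := hu
    have h1 := abs_log_le u hu'
    have he := Real.exp_pos (-u)
    rw [Real.norm_of_nonneg (mul_nonneg he.le (abs_nonneg _))]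
    have e2 : u ^ ((2 : ℝ) - 1) = u := by
      norm_num
    simp only [Pi.add_apply]
    rw [e2]
    calc Real.exp (-u) * |Real.log u| ≤ Real.exp (-u) * (2 * u ^ (1 / 2 - 1 : ℝ) + u) :=
          mul_le_mul_of_nonneg_left h1 he.le
      _ = _ := by ring

theorem integral_log : ∫ u in Ioi 0, Real.exp (-u) * Real.log u = -Real.eulerMascheroniConstant := by
  have h1 := Complex.hasDerivAt_GammaIntegral (s := 1) (by simp)
  have h2 := Complex.hasDerivAt_Gamma_one
  have h3 : Complex.Gamma =ᶠ[𝓝 1] Complex.GammaIntegral := by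
    have h4 : {s : ℂ | 0 < s.re} ∈ 𝓝 (1 : ℂ) :=
      (isOpen_lt continuous_const Complex.continuous_re).mem_nhds (by simp)
    filter_upwards [h4] with s hs
    exact Complex.Gamma_eq_integral hs
  have h5 := (h3.hasDerivAt_iff).1 h2
  have h6 := h5.unique h1
  have h7 : (∫ t : ℝ in Ioi 0, (t : ℂ) ^ ((1 : ℂ) - 1) * ((Real.log t : ℂ) * (Real.exp (-t) : ℂ))) =
      ((∫ u in Ioi 0, Real.exp (-u) * Real.log u : ℝ) : ℂ) := by
    rw [← integral_complex_ofReal]
    refine integral_congr_ae (Filter.Eventually.of_forall fun u => ?_)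
    simp only [sub_self, Complex.cpow_zero, one_mul]
    push_cast
    ring
  rw [h7] at h6
  exact_mod_cast h6.symm

theorem fl_tendsto (u : ℝ) (hu : 0 < u) : Tendsto (fl u) atTop atTop := by
  have h1 : Tendsto (fun k : ℕ => (k : ℝ) + 1) atTop atTop :=
    tendsto_natCast_atTop_atTop.atTop_add tendsto_const_nhds
  exact tendsto_nat_floor_atTop.comp (Real.tendsto_exp_atTop.comp (h1.const_mul_atTop hu))

theorem pointwise (c : ℝ) (hc : Tendsto (fun n : ℕ => FF n - Real.log (Real.log n)) atTop (𝓝 c))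
    (u : ℝ) (hu : 0 < u) : Tendsto (fun k : ℕ => FF (fl u k) - Real.log ((k : ℝ) + 1)) atTop
      (𝓝 (Real.log u + c)) := by
  have h1 : Tendsto (fun k : ℕ => (k : ℝ) + 1) atTop atTop :=
    tendsto_natCast_atTop_atTop.atTop_add tendsto_const_nhds
  have h2 := h1.const_mul_atTop hu
  have h3 : Tendsto (fun k : ℕ => Real.log (Real.log (fl u k)) - Real.log (u * ((k : ℝ) + 1)))
      atTop (𝓝 0) := by
    rw [tendsto_zero_iff_abs_tendsto_zero]
    have h4 : Tendsto (fun k : ℕ => 3 / (u * ((k : ℝ) + 1))) atTop (𝓝 0) :=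
      tendsto_const_nhds.div_atTop h2
    refine squeeze_zero' (Filter.Eventually.of_forall fun k => abs_nonneg _) ?_ h4
    filter_upwards [h2.eventually_ge_atTop 1] with k hk
    exact loglog_fl u k hk
  have h4 := ((hc.comp (fl_tendsto u hu)).add h3).add_const (Real.log u)
  have h5 : c + 0 + Real.log u = Real.log u + c := by ring
  rw [h5] at h4
  refine h4.congr fun k => ?_
  have hk : (0 : ℝ) < (k : ℝ) + 1 := by positivity
  rw [Real.log_mul hu.ne' hk.ne']
  simp only [Function.comp]
  ring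

theorem main_lim (c : ℝ)
    (hc : Tendsto (fun n : ℕ => FF n - Real.log (Real.log n)) atTop (𝓝 c)) :
    Tendsto (fun k : ℕ => Gk k - Real.log ((k : ℝ) + 1)) atTop
      (𝓝 (c - Real.eulerMascheroniConstant)) := by
  obtain ⟨C, hC, hb⟩ := FF_bound
  have hexp : Integrable (fun u : ℝ => Real.exp (-u)) (volume.restrict (Ioi 0)) := exp_neg_int 0
  have hbound : Integrable (fun u => Real.exp (-u) * (|Real.log u| + C))
      (volume.restrict (Ioi 0)) := by
    have h1 := log_int.add (hexp.mul_const C)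
    refine h1.congr (Filter.Eventually.of_forall fun u => ?_)
    simp only [Pi.add_apply]
    ring
  have hmeas : ∀ k : ℕ, AEStronglyMeasurable
      (fun u => Real.exp (-u) * (FF (fl u k) - Real.log ((k : ℝ) + 1)))
      (volume.restrict (Ioi 0)) := by
    intro k
    exact ((Real.measurable_exp.comp measurable_neg).mul
      ((meas_FF k).sub_const _)).aestronglyMeasurable
  have hdom : ∀ k : ℕ, ∀ᵐ u ∂(volume.restrict (Ioi (0 : ℝ))),
      ‖Real.exp (-u) * (FF (fl u k) - Real.log ((k : ℝ) + 1))‖ ≤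
        Real.exp (-u) * (|Real.log u| + C) := by
    intro k
    rw [ae_restrict_iff' measurableSet_Ioi]
    refine Filter.Eventually.of_forall fun u hu => ?_
    rw [norm_mul, Real.norm_of_nonneg (Real.exp_pos _).le]
    exact mul_le_mul_of_nonneg_left (hb u hu k) (Real.exp_pos _).le
  have hlim := tendsto_integral_of_dominated_convergence
    (fun u => Real.exp (-u) * (|Real.log u| + C)) hmeas hbound hdom
    (f := fun u => Real.exp (-u) * (Real.log u + c)) (by
      rw [ae_restrict_iff' measurableSet_Ioi]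
      refine Filter.Eventually.of_forall fun u hu => ?_
      exact (pointwise c hc u hu).const_mul _)
  have hlogi : Integrable (fun u => Real.exp (-u) * Real.log u) (volume.restrict (Ioi 0)) := by
    refine Integrable.mono' log_int ?_ (Filter.Eventually.of_forall fun u => ?_)
    · exact ((Real.measurable_exp.comp measurable_neg).mul
        Real.measurable_log).aestronglyMeasurable
    · rw [norm_mul, Real.norm_of_nonneg (Real.exp_pos _).le, Real.norm_eq_abs]
  have hI : ∫ u in Ioi 0, Real.exp (-u) * (Real.log u + c) =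
      c - Real.eulerMascheroniConstant := by
    have e : (fun u : ℝ => Real.exp (-u) * (Real.log u + c)) =
        fun u => Real.exp (-u) * Real.log u + Real.exp (-u) * c := by
      funext u; ring
    rw [e, integral_add hlogi (hexp.mul_const c), integral_log, integral_mul_const,
      integral_exp_neg_Ioi_zero]
    ring
  rw [hI] at hlim
  refine hlim.congr fun k => ?_
  have hint : Integrable (fun u => Real.exp (-u) * (FF (fl u k) - Real.log ((k : ℝ) + 1)))
      (volume.restrict (Ioi 0)) := Integrable.mono' hbound (hmeas k) (hdom k)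
  have e : (fun u : ℝ => Real.exp (-u) * FF (fl u k)) =
      fun u => Real.exp (-u) * (FF (fl u k) - Real.log ((k : ℝ) + 1)) +
        Real.exp (-u) * Real.log ((k : ℝ) + 1) := by
    funext u; ring
  rw [Gk_eq, e, integral_add hint (hexp.mul_const _), integral_mul_const,
    integral_exp_neg_Ioi_zero]
  ring

/-- Mertens' third theorem, logarithmic form -/
theorem FF_lim : Tendsto (fun n : ℕ => FF n - Real.log (Real.log n)) atTop
    (𝓝 Real.eulerMascheroniConstant) := by
  obtain ⟨c, hc⟩ := FF_tendsto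
  have h1 := tendsto_nhds_unique (main_lim c hc) Gk_lim
  have h2 : c = Real.eulerMascheroniConstant := by linarith
  rwa [h2] at hc

/-- Mertens' third theorem -/
theorem mertens_three : Tendsto (fun n : ℕ => (∏ p ∈ PL n, (1 - 1 / (p : ℝ))) * Real.log n) atTop
    (𝓝 (Real.exp (-Real.eulerMascheroniConstant))) := by
  have h1 := (Real.continuous_exp.tendsto _).comp FF_lim.neg
  refine h1.congr' ?_
  filter_upwards [eventually_ge_atTop 3] with n hn
  have hn' : (3 : ℝ) ≤ n := by exact_mod_cast hn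
  have hl : 0 < Real.log n := Real.log_pos (by linarith)
  have h2 : ∏ p ∈ PL n, (1 - 1 / (p : ℝ)) = Real.exp (-FF n) := by
    unfold FF
    rw [← Finset.sum_neg_distrib, Real.exp_sum]
    refine Finset.prod_congr rfl fun p hp => ?_
    obtain ⟨_, h3⟩ := mem_PL.1 hp
    have hp2 : (2 : ℝ) ≤ p := by exact_mod_cast h3.two_le
    have h4 : 0 < 1 - 1 / (p : ℝ) := by
      rw [sub_pos, div_lt_one (by linarith)]
      linarith
    unfold hh
    rw [if_pos h3, neg_neg, Real.exp_log h4]
  rw [h2]
  simp only [Function.comp]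
  rw [neg_sub, sub_eq_add_neg, Real.exp_add, Real.exp_log hl, mul_comm]

end Pool.Agent.Helper32.M3
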